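import Pool.Agent.Q195.CS2

set_option autoImplicit false

/-!
# MP_d10958_an, Q1: spaces with property (A) contain no ccs Delta-points
-/

namespace Pool.Agent.Results.MP_d10958_an.NoCcsDeltaUnderA

open RCLike

variable {𝕜 : Type*} [RCLike 𝕜] {X : Type*} [NormedAddCommGroup X] [NormedSpace 𝕜 X]

/-- The slice of the closed unit ball given by `f` and `δ`; here `‖f‖` is the supremum of `Re f`
over the closed unit ball. -/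
def slice (f : StrongDual 𝕜 X) (δ : ℝ) : Set X := {z | ‖z‖ ≤ 1 ∧ ‖f‖ - δ < re (f z)}

variable (𝕜) in
/-- `C` is a convex combination of slices of the closed unit ball of `X`. -/
def IsCcs (C : Set X) : Prop :=
  ∃ (n : ℕ) (l : Fin n → ℝ) (f : Fin n → StrongDual 𝕜 X) (δ : Fin n → ℝ),
    (∀ i, 0 < l i) ∧ ∑ i, l i = 1 ∧ (∀ i, 0 < δ i) ∧
    C = {x | ∃ z : Fin n → X, (∀ i, z i ∈ slice (f i) (δ i)) ∧ x = ∑ i, ((l i : ℝ) : 𝕜) • z i}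

variable (𝕜) in
/-- `x` is a ccs `Δ`-point: `‖x‖ = 1` and `sup_{y ∈ C} ‖x - y‖ = 2` for every convex combination of
slices `C` of the unit ball containing `x`. -/
def IsCcsDelta (x : X) : Prop :=
  ‖x‖ = 1 ∧ ∀ C : Set X, IsCcs 𝕜 C → x ∈ C → sSup {r : ℝ | ∃ y ∈ C, r = ‖x - y‖} = 2

/-- Property (A). -/
def PropertyA (𝕜 : Type*) [RCLike 𝕜] (X : Type*) [NormedAddCommGroup X] [NormedSpace 𝕜 X] : Prop :=
  ∃ 𝒜 : Set (X →L[𝕜] X),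
    (∀ T ∈ 𝒜, FiniteDimensional 𝕜 (LinearMap.range (T : X →ₗ[𝕜] X))) ∧
    (∃ c : ℝ, c < 2 ∧ ∀ T ∈ 𝒜, ‖ContinuousLinearMap.id 𝕜 X - T‖ ≤ c) ∧
    ∀ ε : ℝ, 0 < ε → ∀ x : X, ∃ T ∈ 𝒜, ‖x - T x‖ < ε

/-- No real or complex normed space with property (A) contains a ccs `Δ`-point. -/
theorem result (𝕜 : Type*) [RCLike 𝕜] (X : Type*) [NormedAddCommGroup X] [NormedSpace 𝕜 X]
    (hA : PropertyA 𝕜 X) : ¬ ∃ x : X, IsCcsDelta 𝕜 x := by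
  rintro ⟨x, hx⟩
  obtain ⟨𝒜, h1, ⟨c, hc, h2⟩, h3⟩ := hA
  refine Pool.Agent.Q195.CS.no_ccs 𝒜 h1 c hc h2 h3 x ⟨hx.1, fun C hC hxC => hx.2 C ?_ hxC⟩
  obtain ⟨n, l, f, α, hl, hs, hf, hα, rfl⟩ := hC
  refine ⟨n, l, f, α, hl, hs, hα, ?_⟩
  simp only [Pool.Agent.Q195.CS.slice, slice, hf]

end Pool.Agent.Results.MP_d10958_an.NoCcsDeltaUnderA
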